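import Pool.Agent.Work.MP_b5407d_lp_helper74.TRA

/-! MP_b5407d (centred L_p Brunn-Minkowski), block ENE (helper74). -/

set_option autoImplicit false
open MeasureTheory Real Filter Topology
open scoped ContDiff

namespace Pool.Agent.Work.LPBM.helper74

lemma exists_cutoff (n : ℕ) : ∃ K : ℝ, 0 ≤ K ∧ ∀ R : ℝ, 0 < R → ∃ χ : E n → ℝ,
    ContDiff ℝ ∞ χ ∧ HasCompactSupport χ ∧ (∀ x, 0 ≤ χ x ∧ χ x ≤ 1) ∧
    (∀ x, ‖x‖ ≤ R → χ x = 1) ∧ (∀ x, 3 * R ≤ ‖x‖ → χ x = 0) ∧
    (∀ x, ∑ j, (pd j χ x) ^ 2 ≤ K / R ^ 2) ∧ (∀ x, 3 * R ≤ ‖x‖ → ∀ j, pd j χ x = 0) := by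
  let b : ContDiffBump (0 : E n) := ⟨1, 2, one_pos, one_lt_two⟩
  have hbc : ContDiff ℝ ∞ (b : E n → ℝ) := b.contDiff
  have hbs : HasCompactSupport (b : E n → ℝ) := b.hasCompactSupport
  have hfc : Continuous (fderiv ℝ (b : E n → ℝ)) := hbc.continuous_fderiv (by simp)
  obtain ⟨C, hC⟩ := hfc.bounded_above_of_compact_support (hbs.fderiv (𝕜 := ℝ))
  refine ⟨n * C ^ 2, by positivity, fun R hR => ?_⟩
  have hbz : ∀ y : E n, 2 ≤ ‖y‖ → b y = 0 := fun y hy =>
    b.zero_of_le_dist (by simpa [dist_zero_right] using hy)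
  have hR' : ∀ x : E n, ‖R⁻¹ • x‖ = ‖x‖ / R := fun x => by
    rw [norm_smul, norm_inv, Real.norm_eq_abs, abs_of_pos hR]; field_simp
  have hz : ∀ x : E n, 2 * R ≤ ‖x‖ → b (R⁻¹ • x) = 0 := fun x hx =>
    hbz _ (by rw [hR', le_div_iff₀ hR]; exact hx)
  have hcd : ContDiff ℝ ∞ (fun x : E n => b (R⁻¹ • x)) := hbc.comp (by fun_prop)
  have hpd : ∀ j x, pd j (fun x : E n => b (R⁻¹ • x)) x = R⁻¹ * pd j b (R⁻¹ • x) := by
    intro j x
    have h1 : HasFDerivAt (b : E n → ℝ) (fderiv ℝ (b : E n → ℝ) (R⁻¹ • x)) (R⁻¹ • x) :=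
      ((hbc.differentiable (by simp)) _).hasFDerivAt
    have h2 : HasFDerivAt (fun x : E n => R⁻¹ • x) (R⁻¹ • ContinuousLinearMap.id ℝ (E n)) x :=
      (hasFDerivAt_id x).const_smul R⁻¹
    have h3 := h1.comp x h2
    have h4 : fderiv ℝ (fun x : E n => b (R⁻¹ • x)) x =
        (fderiv ℝ (b : E n → ℝ) (R⁻¹ • x)).comp (R⁻¹ • ContinuousLinearMap.id ℝ (E n)) :=
      h3.fderiv
    simp only [pd]
    rw [h4]
    simp
  refine ⟨fun x => b (R⁻¹ • x), hcd, ?_, fun x => ⟨b.nonneg, b.le_one⟩, ?_, ?_, ?_, ?_⟩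
  · refine HasCompactSupport.intro (isCompact_closedBall (0 : E n) (2 * R)) fun x hx => hz x ?_
    simp only [Metric.mem_closedBall, dist_zero_right, not_le] at hx
    exact hx.le
  · intro x hx
    refine b.one_of_mem_closedBall ?_
    simp only [Metric.mem_closedBall, dist_zero_right]
    show ‖R⁻¹ • x‖ ≤ 1
    rw [hR', div_le_one hR]
    exact hx
  · intro x hx
    exact hz x (by linarith)
  · intro x
    calc ∑ j, (pd j (fun x : E n => b (R⁻¹ • x)) x) ^ 2
        ≤ ∑ _j : Fin n, C ^ 2 / R ^ 2 := by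
          refine Finset.sum_le_sum fun j _ => ?_
          rw [hpd]
          have h1 : |pd j b (R⁻¹ • x)| ≤ C := by
            have h2 := (fderiv ℝ (b : E n → ℝ) (R⁻¹ • x)).le_opNorm (EuclideanSpace.single j (1 : ℝ))
            have h3 : ‖(EuclideanSpace.single j (1 : ℝ) : E n)‖ = 1 := by simp
            rw [h3, mul_one] at h2
            exact h2.trans (hC _)
          rw [mul_pow, inv_pow, ← div_eq_inv_mul]
          exact div_le_div_of_nonneg_right (sq_le_sq' (by linarith [(abs_le.1 h1).1])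
            (abs_le.1 h1).2) (by positivity)
      _ = n * C ^ 2 / R ^ 2 := by simp; ring
  · intro x hx j
    have hev : (fun x : E n => b (R⁻¹ • x)) =ᶠ[𝓝 x] fun _ => 0 := by
      have ho : IsOpen {y : E n | 2 * R < ‖y‖} := isOpen_lt continuous_const continuous_norm
      filter_upwards [ho.mem_nhds (show 2 * R < ‖x‖ by linarith)] with y hy
      exact hz y (le_of_lt hy)
    simp only [pd]
    rw [hev.fderiv_eq]
    simp

lemma pd_cutoff_mul {n : ℕ} {χ g : E n → ℝ} (hχ : ContDiff ℝ 1 χ) (hg : ContDiff ℝ 1 g)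
    (j : Fin n) (x : E n) :
    pd j (fun x => χ x ^ 2 * g x) x = χ x ^ 2 * pd j g x + 2 * χ x * pd j χ x * g x := by
  have h1 : HasFDerivAt χ (fderiv ℝ χ x) x := (hχ.differentiable one_ne_zero x).hasFDerivAt
  have h2 : HasFDerivAt g (fderiv ℝ g x) x := (hg.differentiable one_ne_zero x).hasFDerivAt
  have h3 := (h1.pow 2).mul h2
  have h4 : fderiv ℝ (fun x => χ x ^ 2 * g x) x =
      χ x ^ 2 • fderiv ℝ g x + g x • ((2 * χ x) • fderiv ℝ χ x) := by
    have h5 : fderiv ℝ (fun x => χ x ^ 2 * g x) x = _ := h3.fderiv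
    rw [h5]
    simp
  simp only [pd]
  rw [h4]
  simp
  ring

lemma pt_ineq (a b c W : ℝ) (hW : 0 < W) :
    1 / 2 * (a ^ 2 * W) - 5 * (b ^ 2 * W) - 2 * (c ^ 2 * W⁻¹) ≤
      (a ^ 2 + 2 * a * b) * W + (c * a + 2 * c * b) := by
  obtain ⟨d, rfl⟩ : ∃ d, c = d * W := ⟨c / W, by field_simp⟩
  have e : (d * W) ^ 2 * W⁻¹ = d ^ 2 * W := by field_simp
  rw [e]
  nlinarith [mul_nonneg hW.le (sq_nonneg (a / 2 + 2 * b)), mul_nonneg hW.le (sq_nonneg (a / 2 + d)),
    mul_nonneg hW.le (sq_nonneg (b + d))]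

/-- the energy estimate -/
lemma energy {n : ℕ} {V : E n → ℝ} (hV : Continuous V) {g : E n → ℝ} (hg : ContDiff ℝ 1 g)
    {r : Fin n → E n → ℝ} (hr : ∀ j, Continuous (r j))
    (hw : ∀ w : E n → ℝ, ContDiff ℝ 1 w → HasCompactSupport w →
      (∫ x, (∑ j, pd j g x * pd j w x) * wt V x) + (∫ x, ∑ j, r j x * pd j w x) = 0)
    {χ : E n → ℝ} (hχ : ContDiff ℝ 1 χ) (hχs : HasCompactSupport χ) :
    ∫ x, χ x ^ 2 * (∑ j, (pd j g x) ^ 2) * wt V x ≤
      10 * (∫ x, g x ^ 2 * (∑ j, (pd j χ x) ^ 2) * wt V x) +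
      4 * (∫ x, χ x ^ 2 * (∑ j, (r j x) ^ 2) * (wt V x)⁻¹) := by
  have hW : ∀ x, 0 < wt V x := fun x => exp_pos _
  have hWc : Continuous (wt V) := by unfold wt; fun_prop
  have hWi : Continuous fun x => (wt V x)⁻¹ := hWc.inv₀ fun x => (hW x).ne'
  have hpg : ∀ j, Continuous (pd j g) := fun j => continuous_pd hg j
  have hpχ : ∀ j, Continuous (pd j χ) := fun j => continuous_pd hχ j
  have hgc := hg.continuous
  have hχc := hχ.continuous
  have hpχs : ∀ j, HasCompactSupport (pd j χ) := by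
    intro j
    have h := hχs.fderiv (𝕜 := ℝ)
    exact h.comp_left (g := fun L : E n →L[ℝ] ℝ => L (EuclideanSpace.single j (1 : ℝ))) (by simp)
  set w : E n → ℝ := fun x => χ x ^ 2 * g x with hwdef
  have hwc : ContDiff ℝ 1 w := (hχ.pow 2).mul hg
  have hχ2s : HasCompactSupport fun x => χ x ^ 2 :=
    hχs.comp_left (g := fun t : ℝ => t ^ 2) (by simp)
  have hws : HasCompactSupport w := hχ2s.mul_right
  have hpw : ∀ j, Continuous (pd j w) := fun j => continuous_pd hwc j
  have hpws : ∀ j, HasCompactSupport (pd j w) := by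
    intro j
    have h := hws.fderiv (𝕜 := ℝ)
    exact h.comp_left (g := fun L : E n →L[ℝ] ℝ => L (EuclideanSpace.single j (1 : ℝ))) (by simp)
  have hsum_cs : ∀ f : Fin n → E n → ℝ, (∀ j, HasCompactSupport (f j)) →
      HasCompactSupport fun x => ∑ j, f j x := by
    intro f hf
    have : (fun x => ∑ j, f j x) = ∑ j, f j := by ext x; simp
    rw [this]
    refine Finset.sum_induction f (fun g => HasCompactSupport g) (fun a b ha hb => ha.add hb)
      ?_ fun j _ => hf j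
    exact HasCompactSupport.zero
  have i1 : Integrable fun x => (∑ j, pd j g x * pd j w x) * wt V x := by
    refine Continuous.integrable_of_hasCompactSupport ?_ ?_
    · exact (continuous_finsetSum _ fun j _ => (hpg j).mul (hpw j)).mul hWc
    · exact (hsum_cs _ fun j => (hpws j).mul_left).mul_right
  have i2 : Integrable fun x => ∑ j, r j x * pd j w x := by
    refine Continuous.integrable_of_hasCompactSupport ?_ ?_
    · exact continuous_finsetSum _ fun j _ => (hr j).mul (hpw j)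
    · exact hsum_cs _ fun j => (hpws j).mul_left
  have i3 : Integrable fun x => χ x ^ 2 * (∑ j, (pd j g x) ^ 2) * wt V x := by
    refine Continuous.integrable_of_hasCompactSupport ?_ ?_
    · exact ((hχc.pow 2).mul (continuous_finsetSum _ fun j _ => (hpg j).pow 2)).mul hWc
    · exact (hχ2s.mul_right).mul_right
  have i4 : Integrable fun x => g x ^ 2 * (∑ j, (pd j χ x) ^ 2) * wt V x := by
    refine Continuous.integrable_of_hasCompactSupport ?_ ?_
    · exact ((hgc.pow 2).mul (continuous_finsetSum _ fun j _ => (hpχ j).pow 2)).mul hWc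
    · refine HasCompactSupport.mul_right (HasCompactSupport.mul_left (hsum_cs _ fun j => ?_))
      exact (hpχs j).comp_left (g := fun t : ℝ => t ^ 2) (by simp)
  have i5 : Integrable fun x => χ x ^ 2 * (∑ j, (r j x) ^ 2) * (wt V x)⁻¹ := by
    refine Continuous.integrable_of_hasCompactSupport ?_ ?_
    · exact ((hχc.pow 2).mul (continuous_finsetSum _ fun j _ => (hr j).pow 2)).mul hWi
    · exact (hχ2s.mul_right).mul_right
  have h0 := hw w hwc hws
  rw [← integral_add i1 i2] at h0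
  have hpt : ∀ x, 1 / 2 * (χ x ^ 2 * (∑ j, (pd j g x) ^ 2) * wt V x) -
      5 * (g x ^ 2 * (∑ j, (pd j χ x) ^ 2) * wt V x) -
      2 * (χ x ^ 2 * (∑ j, (r j x) ^ 2) * (wt V x)⁻¹) ≤
      (∑ j, pd j g x * pd j w x) * wt V x + ∑ j, r j x * pd j w x := by
    intro x
    have e1 : ∀ j, pd j w x = χ x ^ 2 * pd j g x + 2 * χ x * pd j χ x * g x :=
      fun j => pd_cutoff_mul hχ hg j x
    have e2 : 1 / 2 * (χ x ^ 2 * (∑ j, (pd j g x) ^ 2) * wt V x) -
      5 * (g x ^ 2 * (∑ j, (pd j χ x) ^ 2) * wt V x) -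
      2 * (χ x ^ 2 * (∑ j, (r j x) ^ 2) * (wt V x)⁻¹) =
      ∑ j, (1 / 2 * ((χ x * pd j g x) ^ 2 * wt V x) - 5 * ((g x * pd j χ x) ^ 2 * wt V x) -
        2 * ((χ x * r j x) ^ 2 * (wt V x)⁻¹)) := by
      rw [Finset.sum_sub_distrib, Finset.sum_sub_distrib, Finset.mul_sum, Finset.mul_sum,
        Finset.mul_sum, Finset.sum_mul, Finset.sum_mul, Finset.sum_mul, Finset.mul_sum,
        Finset.mul_sum, Finset.mul_sum]
      congr 1
      · congr 1
        · exact Finset.sum_congr rfl fun j _ => by ring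
        · exact Finset.sum_congr rfl fun j _ => by ring
      · exact Finset.sum_congr rfl fun j _ => by ring
    have e3 : (∑ j, pd j g x * pd j w x) * wt V x + ∑ j, r j x * pd j w x =
      ∑ j, (((χ x * pd j g x) ^ 2 + 2 * (χ x * pd j g x) * (g x * pd j χ x)) * wt V x +
        ((χ x * r j x) * (χ x * pd j g x) + 2 * (χ x * r j x) * (g x * pd j χ x))) := by
      rw [Finset.sum_mul, ← Finset.sum_add_distrib]
      refine Finset.sum_congr rfl fun j _ => ?_
      rw [e1]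
      ring
    rw [e2, e3]
    exact Finset.sum_le_sum fun j _ => pt_ineq _ _ _ _ (hW x)
  have h1 : ∫ x, (1 / 2 * (χ x ^ 2 * (∑ j, (pd j g x) ^ 2) * wt V x) -
      5 * (g x ^ 2 * (∑ j, (pd j χ x) ^ 2) * wt V x) -
      2 * (χ x ^ 2 * (∑ j, (r j x) ^ 2) * (wt V x)⁻¹)) ≤ 0 := by
    rw [← h0]
    exact integral_mono (((i3.const_mul _).sub (i4.const_mul _)).sub (i5.const_mul _))
      (i1.add i2) hpt
  have h2 : ∫ x, (1 / 2 * (χ x ^ 2 * (∑ j, (pd j g x) ^ 2) * wt V x) -
      5 * (g x ^ 2 * (∑ j, (pd j χ x) ^ 2) * wt V x) -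
      2 * (χ x ^ 2 * (∑ j, (r j x) ^ 2) * (wt V x)⁻¹)) =
      1 / 2 * (∫ x, χ x ^ 2 * (∑ j, (pd j g x) ^ 2) * wt V x) -
      5 * (∫ x, g x ^ 2 * (∑ j, (pd j χ x) ^ 2) * wt V x) -
      2 * (∫ x, χ x ^ 2 * (∑ j, (r j x) ^ 2) * (wt V x)⁻¹) := by
    have j3 : Integrable fun x => 1 / 2 * (χ x ^ 2 * (∑ j, (pd j g x) ^ 2) * wt V x) :=
      i3.const_mul _
    have j4 : Integrable fun x => 5 * (g x ^ 2 * (∑ j, (pd j χ x) ^ 2) * wt V x) :=
      i4.const_mul _
    have j5 : Integrable fun x => 2 * (χ x ^ 2 * (∑ j, (r j x) ^ 2) * (wt V x)⁻¹) :=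
      i5.const_mul _
    have j34 : Integrable fun x => 1 / 2 * (χ x ^ 2 * (∑ j, (pd j g x) ^ 2) * wt V x) -
      5 * (g x ^ 2 * (∑ j, (pd j χ x) ^ 2) * wt V x) := j3.sub j4
    rw [integral_sub j34 j5, integral_sub j3 j4, integral_const_mul, integral_const_mul,
      integral_const_mul]
  rw [h2] at h1
  linarith

lemma bound_closedBall {n : ℕ} {f : E n → ℝ} (hf : Continuous f) (R : ℝ) :
    ∃ M : ℝ, 0 < M ∧ ∀ x, ‖x‖ ≤ R → f x ≤ M := by
  obtain ⟨M, hM⟩ := (isCompact_closedBall (0 : E n) R).bddAbove_image hf.continuousOn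
  refine ⟨max M 1, by positivity, fun x hx => ?_⟩
  refine le_trans (hM ⟨x, by simpa using hx, rfl⟩) (le_max_left _ _)

/-- the corrected statement -/
theorem ene {n : ℕ} {V : E n → ℝ} (hV : Continuous V) {ψ : E n → ℝ}
    (hψm : AEStronglyMeasurable ψ volume) (hψi : Integrable (fun x => (ψ x) ^ 2 * wt V x))
    (g : ℕ → E n → ℝ) (r : ℕ → Fin n → E n → ℝ)
    (hg : ∀ m, ContDiff ℝ 1 (g m)) (hr : ∀ m j, Continuous (r m j))
    (hw : ∀ m, ∀ w : E n → ℝ, ContDiff ℝ 1 w → HasCompactSupport w →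
      (∫ x, (∑ j, pd j (g m) x * pd j w x) * wt V x) + (∫ x, ∑ j, r m j x * pd j w x) = 0)
    (hgl : ∀ ρ : ℝ, Tendsto (fun m => ∫ x in Metric.ball (0 : E n) ρ, (g m x - ψ x) ^ 2)
      atTop (𝓝 0))
    (hrl : ∀ ρ : ℝ, Tendsto (fun m => ∫ x in Metric.ball (0 : E n) ρ, ∑ j, (r m j x) ^ 2)
      atTop (𝓝 0)) (ρ : ℝ) :
    Tendsto (fun m => ∫ x in Metric.ball (0 : E n) ρ, ∑ j, (pd j (g m) x) ^ 2) atTop (𝓝 0) := by
  have hW : ∀ x, 0 < wt V x := fun x => exp_pos _
  have hWc : Continuous (wt V) := by unfold wt; fun_prop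
  have hWi : Continuous fun x => (wt V x)⁻¹ := hWc.inv₀ fun x => (hW x).ne'
  -- integrability on balls
  have hψb : ∀ ρ, IntegrableOn (fun x => (ψ x) ^ 2) (Metric.ball (0 : E n) ρ) volume := by
    intro ρ
    obtain ⟨M, hM0, hM⟩ := bound_closedBall hWi ρ
    refine Integrable.mono' (g := fun x => M * ((ψ x) ^ 2 * wt V x))
      ((hψi.const_mul M).integrableOn) (hψm.pow 2).restrict ?_
    rw [ae_restrict_iff' Metric.isOpen_ball.measurableSet]
    refine Eventually.of_forall fun x hx => ?_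
    have h1 : (wt V x)⁻¹ ≤ M := hM x (by simpa using (Metric.mem_ball.1 hx).le)
    have h2 : 1 ≤ M * wt V x := by
      rw [inv_le_iff_one_le_mul₀ (hW x)] at h1
      exact h1
    rw [Real.norm_eq_abs, abs_of_nonneg (sq_nonneg _)]
    nlinarith [sq_nonneg (ψ x)]
  have hdi : ∀ m ρ, IntegrableOn (fun x => (g m x - ψ x) ^ 2) (Metric.ball (0 : E n) ρ) volume := by
    intro m ρ
    have hgc := (hg m).continuous
    refine Integrable.mono' (g := fun x => 2 * (g m x) ^ 2 + 2 * (ψ x) ^ 2) ?_ ?_ ?_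
    · exact ((integrableOn_ball_of_continuous (hgc.pow 2) ρ).const_mul 2).add
        ((hψb ρ).const_mul 2)
    · exact ((hgc.aestronglyMeasurable.sub hψm).pow 2).restrict
    · refine Eventually.of_forall fun x => ?_
      rw [Real.norm_eq_abs, abs_of_nonneg (sq_nonneg _)]
      nlinarith [sq_nonneg (g m x + ψ x)]
  obtain ⟨K, hK0, hK⟩ := exists_cutoff n
  obtain ⟨N0, hN0, hN⟩ := bound_closedBall hWi ρ
  set Ψ := ∫ x, (ψ x) ^ 2 * wt V x with hΨ
  have hΨ0 : 0 ≤ Ψ := integral_nonneg fun x => mul_nonneg (sq_nonneg _) (hW x).le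
  -- main estimate
  have main : ∀ R : ℝ, 0 < R → ρ ≤ R → ∃ M1 M2 : ℝ, ∀ m,
      ∫ x in Metric.ball (0 : E n) ρ, ∑ j, (pd j (g m) x) ^ 2 ≤
      N0 * (20 * K * Ψ / R ^ 2) +
      M1 * (∫ x in Metric.ball (0 : E n) (3 * R), (g m x - ψ x) ^ 2) +
      M2 * (∫ x in Metric.ball (0 : E n) (3 * R), ∑ j, (r m j x) ^ 2) := by
    intro R hR hρR
    obtain ⟨χ, hχ, hχs, hχ01, hχ1, hχ3, hχp, hχp3⟩ := hK R hR
    have hχ' : ContDiff ℝ 1 χ := hχ.of_le (by exact_mod_cast le_top)
    obtain ⟨A1, hA10, hA1⟩ := bound_closedBall hWc (3 * R)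
    obtain ⟨A2, hA20, hA2⟩ := bound_closedBall hWi (3 * R)
    refine ⟨N0 * (20 * K / R ^ 2 * A1), N0 * (4 * A2), fun m => ?_⟩
    have hE := energy hV (hg m) (hr m) (hw m) hχ' hχs
    have hpg : ∀ j, Continuous (pd j (g m)) := fun j => continuous_pd (hg m) j
    have hgc := (hg m).continuous
    have hball3 : MeasurableSet (Metric.ball (0 : E n) (3 * R)) := Metric.isOpen_ball.measurableSet
    have hKR : 0 ≤ K / R ^ 2 := by positivity
    -- first term
    have hB : ∫ x, (g m x) ^ 2 * (∑ j, (pd j χ x) ^ 2) * wt V x ≤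
        2 * (K / R ^ 2) * Ψ + 2 * (K / R ^ 2) * A1 *
          (∫ x in Metric.ball (0 : E n) (3 * R), (g m x - ψ x) ^ 2) := by
      have hGi : Integrable fun x => 2 * (K / R ^ 2) * ((ψ x) ^ 2 * wt V x) +
          2 * (K / R ^ 2) * A1 * (Metric.ball (0 : E n) (3 * R)).indicator
            (fun x => (g m x - ψ x) ^ 2) x :=
        (hψi.const_mul _).add (((integrable_indicator_iff hball3).2 (hdi m _)).const_mul _)
      have hle : ∀ x, (g m x) ^ 2 * (∑ j, (pd j χ x) ^ 2) * wt V x ≤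
          2 * (K / R ^ 2) * ((ψ x) ^ 2 * wt V x) +
          2 * (K / R ^ 2) * A1 * (Metric.ball (0 : E n) (3 * R)).indicator
            (fun x => (g m x - ψ x) ^ 2) x := by
        intro x
        by_cases hx : x ∈ Metric.ball (0 : E n) (3 * R)
        · rw [Set.indicator_of_mem hx]
          have hx' : ‖x‖ ≤ 3 * R := by simpa using (Metric.mem_ball.1 hx).le
          have h1 := hA1 x hx'
          have h2 := hχp x
          have h3 : 0 ≤ ∑ j, (pd j χ x) ^ 2 := Finset.sum_nonneg fun j _ => sq_nonneg _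
          have h4 : (g m x) ^ 2 ≤ 2 * (ψ x) ^ 2 + 2 * (g m x - ψ x) ^ 2 := by
            nlinarith [sq_nonneg (2 * ψ x - g m x)]
          calc (g m x) ^ 2 * (∑ j, (pd j χ x) ^ 2) * wt V x
              ≤ (2 * (ψ x) ^ 2 + 2 * (g m x - ψ x) ^ 2) * (K / R ^ 2) * wt V x := by
                refine mul_le_mul_of_nonneg_right ?_ (hW x).le
                exact mul_le_mul h4 h2 h3 (by positivity)
            _ = 2 * (K / R ^ 2) * ((ψ x) ^ 2 * wt V x) +
                2 * (K / R ^ 2) * wt V x * (g m x - ψ x) ^ 2 := by ring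
            _ ≤ 2 * (K / R ^ 2) * ((ψ x) ^ 2 * wt V x) +
                2 * (K / R ^ 2) * A1 * (g m x - ψ x) ^ 2 := by
                refine add_le_add le_rfl (mul_le_mul_of_nonneg_right ?_ (sq_nonneg _))
                exact mul_le_mul_of_nonneg_left h1 (by positivity)
        · rw [Set.indicator_of_notMem hx]
          have hx' : 3 * R ≤ ‖x‖ := by
            by_contra hc
            exact hx (by simpa using not_le.1 hc)
          have : ∑ j, (pd j χ x) ^ 2 = 0 := by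
            refine Finset.sum_eq_zero fun j _ => ?_
            rw [hχp3 x hx' j]; ring
          rw [this]
          have := mul_nonneg (mul_nonneg (zero_le_two (α := ℝ)) hKR)
            (mul_nonneg (sq_nonneg (ψ x)) (hW x).le)
          simp only [mul_zero, zero_mul, add_zero]
          exact this
      have hnn : ∀ x, 0 ≤ (g m x) ^ 2 * (∑ j, (pd j χ x) ^ 2) * wt V x := fun x =>
        mul_nonneg (mul_nonneg (sq_nonneg _) (Finset.sum_nonneg fun j _ => sq_nonneg _)) (hW x).le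
      refine (integral_mono_of_nonneg (Eventually.of_forall hnn) hGi
        (Eventually.of_forall hle)).trans ?_
      rw [integral_add (hψi.const_mul _) (((integrable_indicator_iff hball3).2
        (hdi m _)).const_mul _), integral_const_mul, integral_const_mul,
        integral_indicator hball3]
    have hrc : Continuous fun x => ∑ j, (r m j x) ^ 2 :=
      continuous_finsetSum _ fun j _ => (hr m j).pow 2
    have hC : ∫ x, χ x ^ 2 * (∑ j, (r m j x) ^ 2) * (wt V x)⁻¹ ≤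
        A2 * (∫ x in Metric.ball (0 : E n) (3 * R), ∑ j, (r m j x) ^ 2) := by
      have hri : IntegrableOn (fun x => ∑ j, (r m j x) ^ 2) (Metric.ball (0 : E n) (3 * R)) volume :=
        integrableOn_ball_of_continuous hrc _
      have hGi : Integrable fun x => A2 * (Metric.ball (0 : E n) (3 * R)).indicator
            (fun x => ∑ j, (r m j x) ^ 2) x :=
        ((integrable_indicator_iff hball3).2 hri).const_mul _
      have hnn : ∀ x, 0 ≤ χ x ^ 2 * (∑ j, (r m j x) ^ 2) * (wt V x)⁻¹ := fun x =>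
        mul_nonneg (mul_nonneg (sq_nonneg _) (Finset.sum_nonneg fun j _ => sq_nonneg _))
          (inv_nonneg.2 (hW x).le)
      refine (integral_mono_of_nonneg (Eventually.of_forall hnn) hGi
        (Eventually.of_forall fun x => ?_)).trans ?_
      · by_cases hx : x ∈ Metric.ball (0 : E n) (3 * R)
        · simp only [Set.indicator_of_mem hx]
          have hx' : ‖x‖ ≤ 3 * R := by simpa using (Metric.mem_ball.1 hx).le
          have h1 := hA2 x hx'
          have h3 : 0 ≤ ∑ j, (r m j x) ^ 2 := Finset.sum_nonneg fun j _ => sq_nonneg _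
          have h5 : χ x ^ 2 ≤ 1 := pow_le_one₀ (hχ01 x).1 (hχ01 x).2
          calc χ x ^ 2 * (∑ j, (r m j x) ^ 2) * (wt V x)⁻¹
              ≤ 1 * (∑ j, (r m j x) ^ 2) * A2 := by
                refine mul_le_mul (mul_le_mul_of_nonneg_right h5 h3) h1
                  (inv_nonneg.2 (hW x).le) (by positivity)
            _ = A2 * ∑ j, (r m j x) ^ 2 := by ring
        · simp only [Set.indicator_of_notMem hx]
          have hx' : 3 * R ≤ ‖x‖ := by
            by_contra hc
            exact hx (by simpa using not_le.1 hc)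
          rw [hχ3 x hx']
          simp
      · rw [integral_const_mul, integral_indicator hball3]
    have hA : ∫ x in Metric.ball (0 : E n) ρ, ∑ j, (pd j (g m) x) ^ 2 ≤
        N0 * (∫ x, χ x ^ 2 * (∑ j, (pd j (g m) x) ^ 2) * wt V x) := by
      have hχ2s : HasCompactSupport fun x => χ x ^ 2 :=
        hχs.comp_left (g := fun t : ℝ => t ^ 2) (by simp)
      have hpc : Continuous fun x => ∑ j, (pd j (g m) x) ^ 2 :=
        continuous_finsetSum _ fun j _ => (hpg j).pow 2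
      have i3 : Integrable fun x => χ x ^ 2 * (∑ j, (pd j (g m) x) ^ 2) * wt V x := by
        refine Continuous.integrable_of_hasCompactSupport ?_ ?_
        · exact ((hχ'.continuous.pow 2).mul hpc).mul hWc
        · exact (hχ2s.mul_right).mul_right
      have hnn : ∀ x, 0 ≤ χ x ^ 2 * (∑ j, (pd j (g m) x) ^ 2) * wt V x := fun x =>
        mul_nonneg (mul_nonneg (sq_nonneg _) (Finset.sum_nonneg fun j _ => sq_nonneg _)) (hW x).le
      rw [← integral_const_mul]
      calc ∫ x in Metric.ball (0 : E n) ρ, ∑ j, (pd j (g m) x) ^ 2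
          ≤ ∫ x in Metric.ball (0 : E n) ρ, N0 * (χ x ^ 2 * (∑ j, (pd j (g m) x) ^ 2) * wt V x) := by
            refine setIntegral_mono_on (integrableOn_ball_of_continuous hpc _)
              (i3.const_mul _).integrableOn Metric.isOpen_ball.measurableSet fun x hx => ?_
            have hx' : ‖x‖ ≤ ρ := by simpa using (Metric.mem_ball.1 hx).le
            rw [hχ1 x (hx'.trans hρR)]
            have h1 := hN x hx'
            rw [inv_le_iff_one_le_mul₀ (hW x)] at h1
            have h3 : 0 ≤ ∑ j, (pd j (g m) x) ^ 2 := Finset.sum_nonneg fun j _ => sq_nonneg _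
            nlinarith
        _ ≤ ∫ x, N0 * (χ x ^ 2 * (∑ j, (pd j (g m) x) ^ 2) * wt V x) :=
            setIntegral_le_integral (i3.const_mul _)
              (Eventually.of_forall fun x => mul_nonneg hN0.le (hnn x))
    refine hA.trans ?_
    have h6 : ∫ x, χ x ^ 2 * (∑ j, (pd j (g m) x) ^ 2) * wt V x ≤
        20 * K * Ψ / R ^ 2 +
        20 * K / R ^ 2 * A1 * (∫ x in Metric.ball (0 : E n) (3 * R), (g m x - ψ x) ^ 2) +
        4 * A2 * (∫ x in Metric.ball (0 : E n) (3 * R), ∑ j, (r m j x) ^ 2) := by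
      refine hE.trans ?_
      have e1 : 20 * K * Ψ / R ^ 2 = 10 * (2 * (K / R ^ 2) * Ψ) := by ring
      have e2 : 20 * K / R ^ 2 * A1 = 10 * (2 * (K / R ^ 2) * A1) := by ring
      rw [e1, e2]
      nlinarith [hB, hC]
    calc N0 * (∫ x, χ x ^ 2 * (∑ j, (pd j (g m) x) ^ 2) * wt V x)
        ≤ N0 * (20 * K * Ψ / R ^ 2 +
        20 * K / R ^ 2 * A1 * (∫ x in Metric.ball (0 : E n) (3 * R), (g m x - ψ x) ^ 2) +
        4 * A2 * (∫ x in Metric.ball (0 : E n) (3 * R), ∑ j, (r m j x) ^ 2)) :=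
          mul_le_mul_of_nonneg_left h6 hN0.le
      _ = _ := by ring
  -- conclusion
  rw [Metric.tendsto_atTop]
  intro ε hε
  obtain ⟨R, hR0, hRρ, hRε⟩ : ∃ R : ℝ, 0 < R ∧ ρ ≤ R ∧ N0 * (20 * K * Ψ / R ^ 2) < ε / 2 := by
    have ht : Tendsto (fun R : ℝ => N0 * (20 * K * Ψ / R ^ 2)) atTop (𝓝 0) := by
      have h1 : Tendsto (fun R : ℝ => 20 * K * Ψ / R ^ 2) atTop (𝓝 0) :=
        Tendsto.const_div_atTop (tendsto_pow_atTop two_ne_zero) _
      simpa using h1.const_mul N0
    have h2 := (ht.eventually (gt_mem_nhds (half_pos hε))).and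
      ((eventually_gt_atTop (0 : ℝ)).and (eventually_ge_atTop ρ))
    obtain ⟨R, h3, h4, h5⟩ := h2.exists
    exact ⟨R, h4, h5, h3⟩
  obtain ⟨M1, M2, hM⟩ := main R hR0 hRρ
  have hlim : Tendsto (fun m => M1 * (∫ x in Metric.ball (0 : E n) (3 * R), (g m x - ψ x) ^ 2) +
      M2 * (∫ x in Metric.ball (0 : E n) (3 * R), ∑ j, (r m j x) ^ 2)) atTop (𝓝 0) := by
    have := ((hgl (3 * R)).const_mul M1).add ((hrl (3 * R)).const_mul M2)
    simpa using this
  have hev := hlim.eventually (gt_mem_nhds (half_pos hε))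
  obtain ⟨m0, hm0⟩ := eventually_atTop.1 hev
  refine ⟨m0, fun m hm => ?_⟩
  have h1 := hM m
  have h2 := hm0 m hm
  have h3 : 0 ≤ ∫ x in Metric.ball (0 : E n) ρ, ∑ j, (pd j (g m) x) ^ 2 :=
    integral_nonneg fun x => Finset.sum_nonneg fun j _ => sq_nonneg _
  rw [Real.dist_eq, sub_zero, abs_of_nonneg h3]
  linarith

theorem stmt_ENE : Stmt_ENE := by
  intro n V hV ψ hm hi g r hg hr hw hgl hrl ρ
  exact ene hV.continuous hm hi g r hg hr hw hgl hrl ρ

end Pool.Agent.Work.LPBM.helper74
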