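import Pool.Agent.Work.MP_b5407d_lp.Interface

/-! MP_b5407d (centred L_p Brunn-Minkowski), block TRA (helper74). -/

set_option autoImplicit false
open MeasureTheory Real Filter Topology

namespace Pool.Agent.Work.LPBM.helper74

lemma fderiv_eq_sum {n : ℕ} (g : E n → ℝ) (x z : E n) :
    fderiv ℝ g x z = ∑ j, z j * pd j g x := by
  have h := (EuclideanSpace.basisFun (Fin n) ℝ).sum_repr z
  conv_lhs => rw [← h]
  rw [map_sum]
  refine Finset.sum_congr rfl fun j _ => ?_
  rw [map_smul, smul_eq_mul]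
  simp [pd, EuclideanSpace.basisFun_apply]

lemma fderiv_sq_le {n : ℕ} (g : E n → ℝ) (x z : E n) :
    (fderiv ℝ g x z) ^ 2 ≤ ‖z‖ ^ 2 * ∑ j, (pd j g x) ^ 2 := by
  rw [fderiv_eq_sum, EuclideanSpace.norm_sq_eq]
  simp only [Real.norm_eq_abs, sq_abs]
  exact Finset.sum_mul_sq_le_sq_mul_sq Finset.univ (fun j => z j) (fun j => pd j g x)

lemma continuous_pd {n : ℕ} {g : E n → ℝ} (hg : ContDiff ℝ 1 g) (j : Fin n) :
    Continuous (pd j g) := by
  unfold pd
  exact (hg.continuous_fderiv one_ne_zero).clm_apply continuous_const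

lemma jensen01 (f : ℝ → ℝ) (hf : Continuous f) :
    (∫ s in (0 : ℝ)..1, f s) ^ 2 ≤ ∫ s in (0 : ℝ)..1, (f s) ^ 2 := by
  set c := ∫ s in (0 : ℝ)..1, f s with hc
  have h0 : 0 ≤ ∫ s in (0 : ℝ)..1, (f s - c) ^ 2 :=
    intervalIntegral.integral_nonneg zero_le_one (fun s _ => sq_nonneg _)
  have h1 : ∫ s in (0 : ℝ)..1, (f s - c) ^ 2 = (∫ s in (0 : ℝ)..1, (f s) ^ 2) - 2 * c * c + c ^ 2 := by
    have : ∀ s, (f s - c) ^ 2 = (f s) ^ 2 - 2 * c * f s + c ^ 2 := fun s => by ring
    simp_rw [this]
    rw [intervalIntegral.integral_add, intervalIntegral.integral_sub,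
      intervalIntegral.integral_const_mul, ← hc]
    · simp
    · exact (hf.pow 2).intervalIntegrable _ _
    · exact (continuous_const.mul hf).intervalIntegrable _ _
    · exact ((hf.pow 2).sub (continuous_const.mul hf)).intervalIntegrable _ _
    · exact continuous_const.intervalIntegrable _ _
  nlinarith [h0, h1]

lemma diff_sq_le {n : ℕ} {g : E n → ℝ} (hg : ContDiff ℝ 1 g) (x z : E n) :
    (g (x + z) - g x) ^ 2 ≤ ‖z‖ ^ 2 * ∫ s in (0 : ℝ)..1, ∑ j, (pd j g (x + s • z)) ^ 2 := by
  have hd : ∀ s : ℝ, HasDerivAt (fun s : ℝ => g (x + s • z)) (fderiv ℝ g (x + s • z) z) s := by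
    intro s
    have h1 : HasFDerivAt g (fderiv ℝ g (x + s • z)) (x + s • z) :=
      ((hg.differentiable one_ne_zero) _).hasFDerivAt
    have h2 : HasDerivAt (fun s : ℝ => x + s • z) z s := by
      have := ((hasDerivAt_id s).smul_const z).const_add x
      simpa using this
    exact h1.comp_hasDerivAt s h2
  have hcl : Continuous fun s : ℝ => x + s • z := by fun_prop
  have hcd : Continuous fun s : ℝ => fderiv ℝ g (x + s • z) z :=
    ((hg.continuous_fderiv one_ne_zero).comp hcl).clm_apply continuous_const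
  have hft : ∫ s in (0 : ℝ)..1, fderiv ℝ g (x + s • z) z = g (x + z) - g x := by
    have := intervalIntegral.integral_eq_sub_of_hasDerivAt (a := (0 : ℝ)) (b := 1)
      (fun s _ => hd s) (hcd.intervalIntegrable _ _)
    simpa using this
  have hcq : Continuous fun s : ℝ => ∑ j, (pd j g (x + s • z)) ^ 2 := by
    refine continuous_finsetSum _ fun j _ => ?_
    exact ((continuous_pd hg j).comp hcl).pow 2
  rw [← hft, ← intervalIntegral.integral_const_mul]
  refine (jensen01 _ hcd).trans ?_
  refine intervalIntegral.integral_mono_on zero_le_one ((hcd.pow 2).intervalIntegrable _ _)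
    ((continuous_const.mul hcq).intervalIntegrable _ _) ?_
  intro s _
  exact fderiv_sq_le g _ z

lemma integrableOn_ball_of_continuous {n : ℕ} {F : E n → ℝ} (hF : Continuous F) (ρ : ℝ) :
    IntegrableOn F (Metric.ball (0 : E n) ρ) volume :=
  (hF.continuousOn.integrableOn_compact (isCompact_closedBall (0 : E n) ρ)).mono_set
    Metric.ball_subset_closedBall

lemma shift_ball {n : ℕ} (F : E n → ℝ) (ρ : ℝ) (z : E n) :
    ∫ x in Metric.ball (0 : E n) ρ, F (x + z) = ∫ y in Metric.ball z ρ, F y := by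
  have h := (measurePreserving_add_right (volume : Measure (E n)) z).setIntegral_preimage_emb
    (MeasurableEquiv.addRight z).measurableEmbedding F (Metric.ball z ρ)
  rw [← h]
  congr 2
  ext x
  simp [Metric.mem_ball, dist_eq_norm]

lemma shift_ball_le {n : ℕ} (F : E n → ℝ) (hF : ∀ x, 0 ≤ F x) (ρ : ℝ) (z : E n)
    (hi : IntegrableOn F (Metric.ball (0 : E n) (ρ + ‖z‖)) volume) :
    ∫ x in Metric.ball (0 : E n) ρ, F (x + z) ≤ ∫ y in Metric.ball (0 : E n) (ρ + ‖z‖), F y := by
  rw [shift_ball]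
  refine setIntegral_mono_set hi (Eventually.of_forall fun x => hF x) ?_
  refine Eventually.of_forall ?_
  intro y hy
  have h1 : dist y z < ρ := hy
  have : ‖y‖ < ρ + ‖z‖ := by
    have h2 : ‖y‖ ≤ ‖y - z‖ + ‖z‖ := by
      simpa using norm_add_le (y - z) z
    rw [dist_eq_norm] at h1
    linarith
  show y ∈ Metric.ball (0 : E n) (ρ + ‖z‖)
  simpa [Metric.mem_ball, dist_zero_right] using this

lemma shift_integrableOn {n : ℕ} (F : E n → ℝ) (ρ : ℝ) (z : E n)
    (hi : IntegrableOn F (Metric.ball (0 : E n) (ρ + ‖z‖)) volume) :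
    IntegrableOn (fun x => F (x + z)) (Metric.ball (0 : E n) ρ) volume := by
  have hsub : Metric.ball z ρ ⊆ Metric.ball (0 : E n) (ρ + ‖z‖) := by
    intro y hy
    have h1 : dist y z < ρ := hy
    have h2 : ‖y‖ ≤ ‖y - z‖ + ‖z‖ := by
      simpa using norm_add_le (y - z) z
    rw [dist_eq_norm] at h1
    simp only [Metric.mem_ball, dist_zero_right]
    linarith
  have h := ((measurePreserving_add_right (volume : Measure (E n)) z).integrableOn_comp_preimage
    (MeasurableEquiv.addRight z).measurableEmbedding (f := F) (s := Metric.ball z ρ)).2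
      (hi.mono_set hsub)
  have hpre : (fun x : E n => x + z) ⁻¹' Metric.ball z ρ = Metric.ball (0 : E n) ρ := by
    ext x
    simp [Metric.mem_ball, dist_eq_norm]
  rw [hpre] at h
  exact h

lemma translate_le {n : ℕ} {g : E n → ℝ} (hg : ContDiff ℝ 1 g) (ρ : ℝ) (z : E n) :
    ∫ x in Metric.ball (0 : E n) ρ, (g (x + z) - g x) ^ 2 ≤
      ‖z‖ ^ 2 * ∫ x in Metric.ball (0 : E n) (ρ + ‖z‖), ∑ j, (pd j g x) ^ 2 := by
  set Q : E n → ℝ := fun x => ∑ j, (pd j g x) ^ 2 with hQ
  have hQc : Continuous Q := continuous_finsetSum _ fun j _ => (continuous_pd hg j).pow 2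
  have hQ0 : ∀ x, 0 ≤ Q x := fun x => Finset.sum_nonneg fun j _ => sq_nonneg _
  have hcont2 : Continuous fun p : E n × ℝ => Q (p.1 + p.2 • z) := by fun_prop
  have hint : Integrable (fun p : E n × ℝ => Q (p.1 + p.2 • z))
      ((volume.restrict (Metric.ball (0 : E n) ρ)).prod (volume.restrict (Set.Ioc (0 : ℝ) 1))) := by
    rw [Measure.prod_restrict]
    have hc : IntegrableOn (fun p : E n × ℝ => Q (p.1 + p.2 • z))
        (Metric.closedBall (0 : E n) ρ ×ˢ Set.Icc (0 : ℝ) 1)
        ((volume : Measure (E n)).prod (volume : Measure ℝ)) :=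
      hcont2.continuousOn.integrableOn_compact
        ((isCompact_closedBall (0 : E n) ρ).prod isCompact_Icc)
    exact hc.mono_set (Set.prod_mono Metric.ball_subset_closedBall Set.Ioc_subset_Icc_self)
  have hcI : Continuous fun x : E n => ∫ s in (0 : ℝ)..1, Q (x + s • z) := by
    refine intervalIntegral.continuous_parametric_intervalIntegral_of_continuous' ?_ 0 1
    exact hcont2
  have h1 : ∫ x in Metric.ball (0 : E n) ρ, (g (x + z) - g x) ^ 2 ≤
      ∫ x in Metric.ball (0 : E n) ρ, ‖z‖ ^ 2 * ∫ s in (0 : ℝ)..1, Q (x + s • z) := by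
    refine setIntegral_mono ?_ ?_ fun x => diff_sq_le hg x z
    · refine integrableOn_ball_of_continuous ?_ ρ
      have := hg.continuous
      fun_prop
    · exact integrableOn_ball_of_continuous (continuous_const.mul hcI) ρ
  refine h1.trans ?_
  rw [integral_const_mul]
  refine mul_le_mul_of_nonneg_left ?_ (sq_nonneg _)
  have h2 : ∫ x in Metric.ball (0 : E n) ρ, ∫ s in (0 : ℝ)..1, Q (x + s • z) =
      ∫ s in Set.Ioc (0 : ℝ) 1, ∫ x in Metric.ball (0 : E n) ρ, Q (x + s • z) := by
    simp_rw [intervalIntegral.integral_of_le (zero_le_one (α := ℝ))]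
    exact integral_integral_swap hint
  rw [h2]
  have hI0 : 0 ≤ ∫ x in Metric.ball (0 : E n) (ρ + ‖z‖), Q x :=
    setIntegral_nonneg Metric.isOpen_ball.measurableSet fun x _ => hQ0 x
  have h3 : ∀ s ∈ Set.Ioc (0 : ℝ) 1, ∫ x in Metric.ball (0 : E n) ρ, Q (x + s • z) ≤
      ∫ x in Metric.ball (0 : E n) (ρ + ‖z‖), Q x := by
    intro s hs
    have hsz : ‖s • z‖ ≤ ‖z‖ := by
      rw [norm_smul, Real.norm_eq_abs, abs_of_pos hs.1]
      have := norm_nonneg z
      nlinarith [hs.2]
    refine (shift_ball_le Q hQ0 ρ (s • z) (integrableOn_ball_of_continuous hQc _)).trans ?_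
    refine setIntegral_mono_set (integrableOn_ball_of_continuous hQc _)
      (Eventually.of_forall fun x => hQ0 x) ?_
    exact (Metric.ball_subset_ball (by linarith)).eventuallyLE
  calc ∫ s in Set.Ioc (0 : ℝ) 1, ∫ x in Metric.ball (0 : E n) ρ, Q (x + s • z)
      ≤ ∫ _s in Set.Ioc (0 : ℝ) 1, ∫ x in Metric.ball (0 : E n) (ρ + ‖z‖), Q x := by
        refine setIntegral_mono_on ?_ ?_ measurableSet_Ioc h3
        · exact hint.integral_prod_right
        · exact integrable_const _
    _ = ∫ x in Metric.ball (0 : E n) (ρ + ‖z‖), Q x := by simp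

theorem stmt_TRA : Stmt_TRA := by
  intro n ψ hψm hψi g hg hgl hgr
  have hdi : ∀ m ρ, IntegrableOn (fun x => (g m x - ψ x) ^ 2) (Metric.ball (0 : E n) ρ) volume := by
    intro m ρ
    have hgc := (hg m).continuous
    refine Integrable.mono' (g := fun x => 2 * (g m x) ^ 2 + 2 * (ψ x) ^ 2) ?_ ?_ ?_
    · exact ((integrableOn_ball_of_continuous (hgc.pow 2) ρ).const_mul 2).add
        ((hψi ρ).const_mul 2)
    · exact ((hgc.aestronglyMeasurable.sub hψm).pow 2).restrict
    · refine Eventually.of_forall fun x => ?_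
      rw [Real.norm_eq_abs, abs_of_nonneg (sq_nonneg _)]
      nlinarith [sq_nonneg (g m x + ψ x)]
  have key : ∀ z : E n, ∀ ρ : ℝ, (fun x => (ψ (x + z) - ψ x) ^ 2)
      =ᵐ[volume.restrict (Metric.ball (0 : E n) ρ)] fun _ => 0 := by
    intro z ρ
    have hint : IntegrableOn (fun x => (ψ (x + z) - ψ x) ^ 2) (Metric.ball (0 : E n) ρ) volume := by
      refine Integrable.mono' (g := fun x => 2 * (ψ (x + z)) ^ 2 + 2 * (ψ x) ^ 2) ?_ ?_ ?_
      · exact ((shift_integrableOn (fun x => (ψ x) ^ 2) ρ z (hψi _)).const_mul 2).add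
          ((hψi ρ).const_mul 2)
      · refine (AEStronglyMeasurable.pow (AEStronglyMeasurable.sub ?_ hψm) 2).restrict
        exact hψm.comp_measurePreserving (measurePreserving_add_right volume z)
      · refine Eventually.of_forall fun x => ?_
        rw [Real.norm_eq_abs, abs_of_nonneg (sq_nonneg _)]
        nlinarith [sq_nonneg (ψ (x + z) + ψ x)]
    have hle : ∀ m, ∫ x in Metric.ball (0 : E n) ρ, (ψ (x + z) - ψ x) ^ 2 ≤
        3 * (∫ x in Metric.ball (0 : E n) (ρ + ‖z‖), (g m x - ψ x) ^ 2) +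
        3 * (‖z‖ ^ 2 * ∫ x in Metric.ball (0 : E n) (ρ + ‖z‖), ∑ j, (pd j (g m) x) ^ 2) +
        3 * (∫ x in Metric.ball (0 : E n) ρ, (g m x - ψ x) ^ 2) := by
      intro m
      have hgc := (hg m).continuous
      have e1 := shift_integrableOn (fun x => (g m x - ψ x) ^ 2) ρ z (hdi m _)
      have e2 : IntegrableOn (fun x => (g m (x + z) - g m x) ^ 2) (Metric.ball (0 : E n) ρ)
          volume := integrableOn_ball_of_continuous (by fun_prop) ρ
      have e3 := hdi m ρ
      have hpt : ∫ x in Metric.ball (0 : E n) ρ, (ψ (x + z) - ψ x) ^ 2 ≤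
          ∫ x in Metric.ball (0 : E n) ρ, (3 * (g m (x + z) - ψ (x + z)) ^ 2 +
            3 * (g m (x + z) - g m x) ^ 2 + 3 * (g m x - ψ x) ^ 2) := by
        refine setIntegral_mono hint (((e1.const_mul 3).add (e2.const_mul 3)).add
          (e3.const_mul 3)) fun x => ?_
        simp only
        nlinarith [sq_nonneg ((g m (x + z) - ψ (x + z)) + (g m (x + z) - g m x)),
          sq_nonneg ((g m (x + z) - g m x) - (g m x - ψ x)),
          sq_nonneg ((g m (x + z) - ψ (x + z)) + (g m x - ψ x))]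
      have hsum : ∫ x in Metric.ball (0 : E n) ρ, (3 * (g m (x + z) - ψ (x + z)) ^ 2 +
            3 * (g m (x + z) - g m x) ^ 2 + 3 * (g m x - ψ x) ^ 2) =
          3 * (∫ x in Metric.ball (0 : E n) ρ, (g m (x + z) - ψ (x + z)) ^ 2) +
          3 * (∫ x in Metric.ball (0 : E n) ρ, (g m (x + z) - g m x) ^ 2) +
          3 * (∫ x in Metric.ball (0 : E n) ρ, (g m x - ψ x) ^ 2) := by
        have a1 : Integrable (fun x => 3 * (g m (x + z) - ψ (x + z)) ^ 2)
            (volume.restrict (Metric.ball (0 : E n) ρ)) := e1.const_mul 3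
        have a2 : Integrable (fun x => 3 * (g m (x + z) - g m x) ^ 2)
            (volume.restrict (Metric.ball (0 : E n) ρ)) := e2.const_mul 3
        have a3 : Integrable (fun x => 3 * (g m x - ψ x) ^ 2)
            (volume.restrict (Metric.ball (0 : E n) ρ)) := e3.const_mul 3
        have a12 : Integrable (fun x => 3 * (g m (x + z) - ψ (x + z)) ^ 2 +
            3 * (g m (x + z) - g m x) ^ 2)
            (volume.restrict (Metric.ball (0 : E n) ρ)) := a1.add a2
        rw [integral_add a12 a3, integral_add a1 a2, integral_const_mul, integral_const_mul,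
          integral_const_mul]
      rw [hsum] at hpt
      have f1 := shift_ball_le (fun x => (g m x - ψ x) ^ 2) (fun x => sq_nonneg _) ρ z (hdi m _)
      have f2 := translate_le (hg m) ρ z
      linarith
    have hlim : Tendsto (fun m => 3 * (∫ x in Metric.ball (0 : E n) (ρ + ‖z‖), (g m x - ψ x) ^ 2) +
        3 * (‖z‖ ^ 2 * ∫ x in Metric.ball (0 : E n) (ρ + ‖z‖), ∑ j, (pd j (g m) x) ^ 2) +
        3 * (∫ x in Metric.ball (0 : E n) ρ, (g m x - ψ x) ^ 2)) atTop (𝓝 0) := by
      have := (((hgl (ρ + ‖z‖)).const_mul 3).add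
        (((hgr (ρ + ‖z‖)).const_mul (‖z‖ ^ 2)).const_mul 3)).add ((hgl ρ).const_mul 3)
      simpa using this
    have hzero : ∫ x in Metric.ball (0 : E n) ρ, (ψ (x + z) - ψ x) ^ 2 = 0 := by
      refine le_antisymm (ge_of_tendsto hlim (Eventually.of_forall hle)) ?_
      exact integral_nonneg fun x => sq_nonneg _
    exact (integral_eq_zero_iff_of_nonneg (fun x => sq_nonneg _) hint).1 hzero
  have key2 : ∀ z : E n, ∀ᵐ x ∂(volume : Measure (E n)), ψ (x + z) = ψ x := by
    intro z
    have h : ∀ᵐ x ∂(volume : Measure (E n)), ∀ N : ℕ, x ∈ Metric.ball (0 : E n) N →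
        ψ (x + z) = ψ x := by
      rw [ae_all_iff]
      intro N
      have h1 := key z N
      rw [Filter.EventuallyEq, ae_restrict_iff' Metric.isOpen_ball.measurableSet] at h1
      filter_upwards [h1] with x hx hxN
      have := hx hxN
      have h2 : ψ (x + z) - ψ x = 0 := by simpa using this
      linarith
    filter_upwards [h] with x hx
    obtain ⟨N, hN⟩ := exists_nat_gt ‖x‖
    exact hx N (by simpa [Metric.mem_ball] using hN)
  -- strongly measurable version
  set φ := hψm.mk ψ with hφ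
  have hφm : Measurable φ := hψm.stronglyMeasurable_mk.measurable
  have hφe : ψ =ᵐ[volume] φ := hψm.ae_eq_mk
  have key3 : ∀ z : E n, ∀ᵐ x ∂(volume : Measure (E n)), φ (x + z) = φ x := by
    intro z
    have h1 : ∀ᵐ x ∂(volume : Measure (E n)), ψ (x + z) = φ (x + z) :=
      (measurePreserving_add_right (volume : Measure (E n)) z).quasiMeasurePreserving.ae hφe
    filter_upwards [key2 z, hφe, h1] with x h2 h3 h4
    rw [← h4, h2, h3]
  have hmeas : MeasurableSet {p : E n × E n | φ (p.2 + p.1) = φ p.2} :=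
    measurableSet_eq_fun (hφm.comp (measurable_snd.add measurable_fst)) (hφm.comp measurable_snd)
  have hcomm : ∀ᵐ x ∂(volume : Measure (E n)), ∀ᵐ z ∂(volume : Measure (E n)),
      φ (x + z) = φ x := by
    have := (Measure.ae_ae_comm (μ := (volume : Measure (E n))) (ν := (volume : Measure (E n)))
      (p := fun z x => φ (x + z) = φ x) hmeas).1 (Eventually.of_forall key3)
    exact this
  obtain ⟨x0, hx0⟩ := hcomm.exists
  refine ⟨φ x0, ?_⟩
  have h5 : ∀ᵐ y ∂(volume : Measure (E n)), φ y = φ x0 := by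
    have h6 := (measurePreserving_add_left (volume : Measure (E n)) (-x0)).quasiMeasurePreserving.ae
      hx0
    filter_upwards [h6] with y hy
    simpa using hy
  filter_upwards [hφe, h5] with y h7 h8
  rw [h7, h8]

end Pool.Agent.Work.LPBM.helper74
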